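import Pool.Agent.HypVol.L_result_B

namespace Pool.Agent.Results.MP_36752c_an.PerpVolume

open MeasureTheory

/-- One-dimensional dyadic block `[2^(s-1)] ≤ |k| < 2^s` (note `[2^(s-1)] = 2^s / 2` in `ℤ`). -/
def block (s : ℕ) : Set ℤ := {k | (2:ℤ)^s / 2 ≤ |k| ∧ |k| < (2:ℤ)^s}

open Classical in
/-- The hyperbolic layer `ΔQ_n`: all `k ∈ ℤ^d` lying in `ρ(s) = ∏ block (s j)` for some
`s ∈ ℕ^d` with `s_1 + ... + s_d = n` (all its points have `|k j| < 2^n`). -/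
noncomputable def layer (d n : ℕ) : Finset (Fin d → ℤ) :=
  (Fintype.piFinset (fun _ : Fin d => Finset.Ioo (-(2:ℤ)^n) ((2:ℤ)^n))).filter
    (fun k => ∃ s : Fin d → ℕ, ∑ j, s j = n ∧ ∀ j, k j ∈ block (s j))

/-- The polynomial `f(x) = ∑ f^(k) exp(i(k,x))` over `k ∈ ΔQ_n` with `Re f^(k) = a (k,0)` and
`Im f^(k) = a (k,1)`. -/
noncomputable def poly {d n : ℕ} (a : (layer d n) × Fin 2 → ℝ) (x : Fin d → ℝ) : ℂ :=
  ∑ k : layer d n, ((a (k, 0) : ℂ) + (a (k, 1) : ℂ) * Complex.I) *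
    Complex.exp (Complex.I * ((∑ j, (k.1 j : ℝ) * x j : ℝ) : ℂ))

/-- Normalised Lebesgue measure on the torus `[0,2π)^d`. -/
noncomputable def TP (d : ℕ) : Measure (Fin d → ℝ) :=
  Measure.pi (fun _ : Fin d => ENNReal.ofReal (2 * Real.pi)⁻¹ •
    volume.restrict (Set.Ico 0 (2 * Real.pi)))

/-- Fourier coefficient of an integrable function on the torus. -/
noncomputable def fc {d : ℕ} (g : (Fin d → ℝ) → ℂ) (k : Fin d → ℤ) : ℂ :=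
  ∫ x, g x * Complex.exp (-(Complex.I * ((∑ j, (k j : ℝ) * x j : ℝ) : ℂ))) ∂(TP d)

/-- `E^⊥(f)_1` for `f = poly a`: the infimum of `‖f - g‖_1` over integrable `g` whose Fourier
coefficients vanish on `ΔQ_n`. -/
noncomputable def Eperp {d n : ℕ} (a : (layer d n) × Fin 2 → ℝ) : ℝ :=
  sInf {r : ℝ | ∃ g : (Fin d → ℝ) → ℂ, Integrable g (TP d) ∧ (∀ k ∈ layer d n, fc g k = 0) ∧
    r = ∫ x, ‖poly a x - g x‖ ∂(TP d)}

/-- The body `B^⊥_{ΔQ_n}(L_1)`. -/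
def bperp (d n : ℕ) : Set ((layer d n) × Fin 2 → ℝ) := {a | Eperp a ≤ 1}

/-- For `d ≥ 3`, `V_n = vol(B^⊥_{ΔQ_n}(L_1))^(1/N)`, `N = 2 |ΔQ_n|`, has exact order
`(2^n n^(d-2))^(-1/2)`. -/
theorem result (d : ℕ) (hd : 3 ≤ d) : ∃ c C : ℝ, 0 < c ∧ 0 < C ∧ ∀ n : ℕ, 1 ≤ n →
    c * (Real.sqrt (2^n * (n:ℝ)^(d-2)))⁻¹
      ≤ (volume (bperp d n)).toReal ^ (1 / ((2 * (layer d n).card : ℕ) : ℝ)) ∧
    (volume (bperp d n)).toReal ^ (1 / ((2 * (layer d n).card : ℕ) : ℝ))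
      ≤ C * (Real.sqrt (2^n * (n:ℝ)^(d-2)))⁻¹ :=
  HypVol.bperp_volume d hd

end Pool.Agent.Results.MP_36752c_an.PerpVolume
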